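import Pool.Agent.Lib.MP_d41719_co.Main

/-!
# Bipartite graphs of large girth without near perfect 1-colours

The colours of an edge-colouring are the elements of `Fin 5`. In a `(1, 2, 2, 2, 2)`-packing edge-colouring the colour `0`
is the 1-colour (its edges are a matching) and the colours `1, 2, 3, 4` are 2-colours (induced matchings).
-/

open Pool.Agent.Lib.MP_d41719_co

/-- For every `g` there is a number `K` such that for every `N` there is a finite bipartite graph `G` of girth at least `g` on
at least `N` vertices, in which every vertex has degree at most three and all but at most `K` vertices have degree three,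
such that in every `(1, 2, 2, 2, 2)`-packing edge-colouring of `G` at least `|V| / 10000` of the vertices of degree three are
not the end of an edge of the 1-colour. -/
theorem Pool.Agent.Results.MP_d41719_co.NearPerfect.result (g : ℕ) :
    ∃ K : ℕ, ∀ N : ℕ, ∃ (V : Type) (_ : Fintype V) (G : SimpleGraph V),
      N ≤ Fintype.card V ∧ G.IsBipartite ∧ (∀ v, (G.neighborSet v).ncard ≤ 3) ∧
      {v | (G.neighborSet v).ncard ≠ 3}.ncard ≤ K ∧ (g : ℕ∞) ≤ G.egirth ∧
      ∀ c : G.edgeSet → Fin 5, IsPacking G sq c → (Fintype.card V : ℝ) / 10000 ≤ (Missed G c).ncard :=
  near_perfect g
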